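import Pool.Agent.H7.ME.Stmts

/-!
Row LOQ of the board `ld` (MP_fd41b2_co): the local inequality (from the row of the board `hz`)
-/

set_option autoImplicit false

open Finset

namespace Pool.ME7

open Pool.Agent.H23.KT Pool.Agent.H46.KW Pool.KQ Pool.GT7 Pool.GU7 Pool.HZ7 Pool.IA7

theorem loqPow (n : ℕ) : ∃ K : ℝ, 0 < K ∧ ∀ e : ℝ, 0 ≤ e → e ≤ 1 → (1 + e) ^ n ≤ 1 + K * e := by
  induction n with
  | zero => exact ⟨1, one_pos, fun e h0 _ => by simp; exact h0⟩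
  | succ n ih =>
    obtain ⟨K, hK, h⟩ := ih
    refine ⟨2 * K + 1, by linarith, fun e h0 h1 => ?_⟩
    have h2 := h e h0 h1
    have h3 : (1 + e) ^ n * (1 + e) ≤ (1 + K * e) * (1 + e) :=
      mul_le_mul_of_nonneg_right h2 (by linarith)
    have h4 : K * e * e ≤ K * e * 1 := mul_le_mul_of_nonneg_left h1 (by positivity)
    rw [pow_succ]
    nlinarith [h3, h4]

theorem loqPow' (n : ℕ) (η : ℝ) (hη : 0 < η) :
    ∃ e₀ : ℝ, 0 < e₀ ∧ ∀ e : ℝ, 0 ≤ e → e ≤ 1 → e ≤ e₀ → (1 + e) ^ n ≤ 1 + η := by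
  obtain ⟨K, hK, h⟩ := loqPow n
  refine ⟨η / K, by positivity, fun e h0 h1 h2 => (h e h0 h1).trans ?_⟩
  have : K * e ≤ K * (η / K) := mul_le_mul_of_nonneg_left h2 hK.le
  have h3 : K * (η / K) = η := by field_simp
  linarith

theorem loqM (p r a : ℕ) (ha : 1 ≤ a) :
    Mz p r a * (a : ℝ) ^ (p + 2) = ((p : ℝ) + 2) * ph p r := by
  have h : (a : ℝ) ≠ 0 := by
    have : (1 : ℝ) ≤ a := by exact_mod_cast ha
    linarith
  unfold Mz
  rw [pow_succ (a : ℝ) (p + 2)]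
  field_simp

theorem loqM0 (p r a : ℕ) (h : 0 < ph p r) : 0 ≤ Mz p r a := by
  unfold Mz; positivity

theorem loqHalf (p r : ℕ) (h1 : 1 ≤ r) (h2 : r ≤ p + 1) :
    ((p : ℝ) + 2) * ph p r * ((r : ℝ) / (((p : ℝ) + 3 - r) * ((p : ℝ) + 2))) = 1 / 2 := by
  have a1 : (1 : ℝ) ≤ r := by exact_mod_cast h1
  have a2 : (r : ℝ) ≤ p + 1 := by exact_mod_cast h2
  have a3 : (p : ℝ) + 3 - r ≠ 0 := by linarith
  have a4 : (r : ℝ) ≠ 0 := by linarith
  have a5 : (p : ℝ) + 2 ≠ 0 := by positivity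
  unfold ph
  field_simp

/-- The final arithmetic. -/
theorem loqFin (b1 φ a x u d eps MN MM MT R tot2 n nl df S K : ℝ)
    (hS : S ≤ MN + MM - MT + R)
    (h1 : MN ≤ b1 * φ * a * x + eps * a / 8)
    (h2 : MM ≤ tot2 + eps * a / 8)
    (h3 : R ≤ eps * a / 8)
    (h4 : x * (b1 * a) - K + tot2 - n ≤ df)
    (h5 : K ≤ eps * a / 8)
    (h6 : n + nl ≤ u * (b1 * (1 - φ) * a) + MT + eps * a / 8)
    (hx : x = u + d) (hd : 0 ≤ d) (ha : 0 ≤ a) (he : 0 ≤ eps) (hb : 1 / 2 ≤ b1 * (1 - φ)) :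
    S + a / 2 * d + nl ≤ df + eps * a := by
  have k1 : 0 ≤ (b1 * (1 - φ) - 1 / 2) * (a * d) :=
    mul_nonneg (by linarith) (mul_nonneg ha hd)
  have k2 : 0 ≤ eps * a := mul_nonneg he ha
  subst hx
  nlinarith [k1, k2]

theorem loqCard {V : Type} [DecidableEq V] (G : SimpleGraph V) {b : ℕ} (P : Fin b → Finset V)
    (W U : Finset V) (hP : Par G P) (hd : ∀ i, Disjoint (P i) U)
    (hc : ∀ u, u ∈ W ↔ u ∈ U ∨ ∃ i, u ∈ P i) :
    W.card = U.card + (un P).card ∧ (un P).card = ∑ i, sz P i := by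
  constructor
  · have h1 : W = U ∪ un P := by
      ext u
      rw [hc u, mem_union, un, mem_biUnion]
      simp
    have h2 : Disjoint U (un P) := by
      rw [Finset.disjoint_right]
      intro u hu hU
      rw [un, mem_biUnion] at hu
      obtain ⟨i, _, hi⟩ := hu
      exact Finset.disjoint_left.1 (hd i) hi hU
    rw [h1, card_union_of_disjoint h2]
  · unfold un sz
    exact card_biUnion (fun i _ j _ hij => hP.dis i j hij)

/-- The number of cliques. -/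
theorem loqN (h6 : TRVStmt) {V : Type} [DecidableEq V] (G : SimpleGraph V) (p a : ℕ) (e : ℝ)
    (P : Fin (p + 3) → Finset V) (hP : Par G P)
    (hi : ∀ i, ((P i).card : ℝ) ≤ (1 + e) * a) :
    (kc G (un P) (p + 3) : ℝ) ≤ ((1 + e) * a) ^ (p + 3) := by
  classical
  have h1 : kc G (un P) (p + 3) ≤ ∏ i, (P i).card := by
    rw [(h6 G P hP).1, ← Fintype.card_piFinset]
    unfold trv
    exact card_filter_le _ _
  have h2 : (kc G (un P) (p + 3) : ℝ) ≤ ∏ i, ((P i).card : ℝ) := by exact_mod_cast h1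
  refine h2.trans ?_
  have h3 : ∏ i, ((P i).card : ℝ) ≤ ∏ _i : Fin (p + 3), ((1 + e) * a) :=
    Finset.prod_le_prod (fun i _ => Nat.cast_nonneg _) (fun i _ => hi i)
  simpa using h3

/-- The four bounds used for one graph. -/
theorem loqOne (h1 : PWNStmt) (h2 : MLGStmt) (h3 : EDUStmt) (h4 : SPXStmt) (h6 : TRVStmt)
    (p r : ℕ) (hz : PrZ p r) (C ε f C' : ℝ) (hε : 0 < ε) (hf : 0 < f)
    (hf2 : f * (C * ((p : ℝ) + 3) ^ 2) ≤ ε / 8) (hC' : 0 < C') (e η : ℝ) (he : 0 ≤ e)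
    (hη0 : 0 ≤ η) (hη1 : η ≤ 1) (hη2 : η * (((p : ℝ) + 3) * C') ≤ ε / 8) (hη3 : η * C ≤ ε / 8)
    (hη4 : (1 + e) ^ (p + 3) ≤ 1 + η) (hη5 : (1 + e) ^ (p + 2) ≤ 1 + η)
    (a : ℕ) (ha1 : 1 ≤ a) (har : r ≤ a)
    (ha2 : ((p : ℝ) + 3) * r * C' * ((p : ℝ) + 4) ^ (p + 2) ≤ ε * a / 8)
    (ha3 : ((r : ℝ) + 2 * C') ^ 2 + C' ^ 2 ≤ ε * a / 8)
    {V : Type} [DecidableEq V] (G : SimpleGraph V)
    (W : Finset V) (P : Fin (p + 3) → Finset V) (U : Finset V)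
    (hS : Stq G p a e f C C' W P U) (hW : W.card ≤ (p + 3) * a + r)
    (hW2 : (((p + 3) * a + r : ℕ) : ℝ) ≤ W.card + C')
    (hZ : ∀ z ∈ U, ((nb G (un P) z).card : ℝ) +
        1 / (2 * ((p : ℝ) + 3)) * (nlow G p (un P) z : ℝ) / (a : ℝ) ^ (p + 2) ≤
      ((p : ℝ) + 2) * (1 - ph p r) * a + Mz p r a * TZ G p r (un P) z + ε / (8 * C') * a) :
    Mz p r a * ∑ L ∈ clq G W (p + 3), min (r : ℝ) (XX G p r a W L) +
        (a : ℝ) / 2 * ((((p + 3) * a + r : ℕ) : ℝ) - W.card) +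
        1 / (2 * ((p : ℝ) + 3)) * ∑ z ∈ U, (nlow G p (un P) z : ℝ) / (a : ℝ) ^ (p + 2) ≤
      df G p 0 r a W + ε * a := by
  obtain ⟨hφ0, hφ1, -⟩ := h1 p r hz
  have hr1 : 1 ≤ r := by have := hz.rb; omega
  have hrp := hz.rp
  obtain ⟨c1, c2⟩ := loqCard G P W U hS.par hS.disU hS.cov
  have hM0 := loqM0 p r a hφ0
  have hM := loqM p r a ha1
  have haR : (1 : ℝ) ≤ a := by exact_mod_cast ha1
  have c1R : (W.card : ℝ) = U.card + (un P).card := by exact_mod_cast c1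
  have hWR : (W.card : ℝ) ≤ (((p + 3) * a + r : ℕ) : ℝ) := by exact_mod_cast hW
  have hp0 : (0 : ℝ) ≤ p := Nat.cast_nonneg _
  have hr0 : (0 : ℝ) ≤ r := Nat.cast_nonneg _
  have hUC := hS.cU
  have hU0 : (0 : ℝ) ≤ U.card := Nat.cast_nonneg _
  -- the number `x`
  set x : ℕ := (p + 3) * a + r - (un P).card with hxdef
  have hxle : (un P).card ≤ (p + 3) * a + r := by omega
  have hx : (x : ℝ) = (((p + 3) * a + r : ℕ) : ℝ) - (un P).card := by
    rw [hxdef, Nat.cast_sub hxle]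
  have hx2 : (x : ℝ) = U.card + ((((p + 3) * a + r : ℕ) : ℝ) - W.card) := by
    rw [hx, c1R]; ring
  have hx0 : (0 : ℝ) ≤ x := Nat.cast_nonneg _
  have hxC : (x : ℝ) ≤ 2 * C' := by rw [hx2]; linarith
  -- SPX
  have s1 := h4 G p r a W P U hS.par hS.disU hS.cov
  rw [sum_sub_distrib, sum_add_distrib, sum_const, nsmul_eq_mul, sum_comm, ← hx] at s1
  have hN := loqN h6 G p a e P hS.par hS.hi
  rw [kc_eq] at hN
  -- the terms
  have t1 : Mz p r a * (((clq G (un P) (p + 3)).card : ℝ) * x) ≤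
      ((p : ℝ) + 2) * ph p r * a * x + ε * a / 8 := by
    have u1 : Mz p r a * ((clq G (un P) (p + 3)).card : ℝ) ≤
        Mz p r a * ((1 + e) * a) ^ (p + 3) := mul_le_mul_of_nonneg_left hN hM0
    have u2 : Mz p r a * ((1 + e) * a) ^ (p + 3) =
        ((p : ℝ) + 2) * ph p r * a * (1 + e) ^ (p + 3) := by
      rw [mul_pow, ← hM]; ring
    have u3 : ((p : ℝ) + 2) * ph p r * a * (1 + e) ^ (p + 3) ≤
        ((p : ℝ) + 2) * ph p r * a * (1 + η) :=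
      mul_le_mul_of_nonneg_left hη4 (by positivity)
    have u4 : Mz p r a * ((clq G (un P) (p + 3)).card : ℝ) * x ≤
        ((p : ℝ) + 2) * ph p r * a * (1 + η) * x :=
      mul_le_mul_of_nonneg_right (by linarith) hx0
    have u5 : ((p : ℝ) + 2) * ph p r ≤ ((p : ℝ) + 2) * (1 / 2) :=
      mul_le_mul_of_nonneg_left hφ1 (by positivity)
    have u6 : ((p : ℝ) + 2) * ph p r * x ≤ ((p : ℝ) + 2) * (1 / 2) * (2 * C') :=
      mul_le_mul u5 hxC hx0 (by positivity)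
    have u7 : ((p : ℝ) + 2) * (1 / 2) * (2 * C') ≤ ((p : ℝ) + 3) * C' := by nlinarith
    have u8 : η * (((p : ℝ) + 2) * ph p r * x) ≤ ε / 8 :=
      (mul_le_mul_of_nonneg_left (u6.trans u7) hη0).trans hη2
    have u9 : η * (((p : ℝ) + 2) * ph p r * x) * a ≤ ε / 8 * a :=
      mul_le_mul_of_nonneg_right u8 (by positivity)
    nlinarith [u4, u9]
  have t2 : Mz p r a * ∑ L ∈ clq G (un P) (p + 3), mm G p r (un P) L ≤
      (tot G P : ℝ) / 2 + ε * a / 8 := by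
    have v1 := h2 G p 0 r a e f P ⟨Nat.zero_le _, hr1, hrp⟩ he hf.le hS.par hS.hi hS.mis
    have v2 := mul_le_mul_of_nonneg_left v1 hM0
    have v3 : Mz p r a * (tot G P * ((1 + e) * a) ^ (p + 2) *
        ((r : ℝ) / (((p : ℝ) + 3 - r) * ((p : ℝ) + 2)) + ((p : ℝ) + 3) / 2 * f)) =
        tot G P * (1 + e) ^ (p + 2) * (((p : ℝ) + 2) * ph p r *
          ((r : ℝ) / (((p : ℝ) + 3 - r) * ((p : ℝ) + 2))) +
          ((p : ℝ) + 2) * ph p r * (((p : ℝ) + 3) / 2 * f)) := by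
      rw [mul_pow, ← hM]; ring
    rw [v3, loqHalf p r hr1 hrp] at v2
    have v4 : ((p : ℝ) + 2) * ph p r * (((p : ℝ) + 3) / 2 * f) ≤
        1 / 4 * (((p : ℝ) + 3) ^ 2 * f) := by
      have w1 : ((p : ℝ) + 2) * ph p r ≤ ((p : ℝ) + 3) * (1 / 2) :=
        mul_le_mul (by linarith) hφ1 hφ0.le (by positivity)
      have w2 := mul_le_mul_of_nonneg_right w1
        (show 0 ≤ ((p : ℝ) + 3) / 2 * f by positivity)
      refine w2.trans (le_of_eq (by ring))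
    have v5 : (tot G P : ℝ) ≤ C * a := hS.tot
    have v6 : (0 : ℝ) ≤ tot G P := Nat.cast_nonneg _
    have v7 : (tot G P : ℝ) * (1 + e) ^ (p + 2) ≤ tot G P * (1 + η) :=
      mul_le_mul_of_nonneg_left hη5 v6
    have v8 : (tot G P : ℝ) * (1 + e) ^ (p + 2) * (1 / 2 +
          ((p : ℝ) + 2) * ph p r * (((p : ℝ) + 3) / 2 * f)) ≤
        tot G P * (1 + η) * (1 / 2 + 1 / 4 * (((p : ℝ) + 3) ^ 2 * f)) :=
      mul_le_mul v7 (by linarith) (by positivity) (by positivity)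
    have v9 : (tot G P : ℝ) * (1 + η) * (1 / 2 + 1 / 4 * (((p : ℝ) + 3) ^ 2 * f)) ≤
        (tot G P : ℝ) / 2 + tot G P * (η / 2 + 1 / 2 * (((p : ℝ) + 3) ^ 2 * f)) := by
      have w1 : 0 ≤ (tot G P : ℝ) * (((p : ℝ) + 3) ^ 2 * f) * (1 - η) :=
        mul_nonneg (by positivity) (by linarith)
      nlinarith [w1]
    have v10 : (tot G P : ℝ) * (η / 2 + 1 / 2 * (((p : ℝ) + 3) ^ 2 * f)) ≤
        C * a * (η / 2 + 1 / 2 * (((p : ℝ) + 3) ^ 2 * f)) :=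
      mul_le_mul_of_nonneg_right v5 (by positivity)
    have v11 : C * a * (η / 2 + 1 / 2 * (((p : ℝ) + 3) ^ 2 * f)) ≤ ε * a / 8 := by
      have w1 : C * (η / 2 + 1 / 2 * (((p : ℝ) + 3) ^ 2 * f)) ≤ ε / 8 := by nlinarith
      have w2 := mul_le_mul_of_nonneg_right w1 (show (0 : ℝ) ≤ a by positivity)
      nlinarith [w2]
    linarith
  have t3 : Mz p r a * ((r : ℝ) * U.card * (W.card : ℝ) ^ (p + 2)) ≤ ε * a / 8 := by
    have w0 : (((p + 3) * a + r : ℕ) : ℝ) ≤ ((p : ℝ) + 4) * a := by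
      have : (r : ℝ) ≤ a := by exact_mod_cast har
      push_cast; nlinarith
    have w1 : (W.card : ℝ) ^ (p + 2) ≤ (((p : ℝ) + 4) * a) ^ (p + 2) :=
      pow_le_pow_left₀ (Nat.cast_nonneg _) (hWR.trans w0) _
    have w2 : (r : ℝ) * U.card * (W.card : ℝ) ^ (p + 2) ≤
        r * C' * (((p : ℝ) + 4) * a) ^ (p + 2) :=
      mul_le_mul (mul_le_mul_of_nonneg_left hUC hr0) w1 (by positivity) (by positivity)
    have w3 := mul_le_mul_of_nonneg_left w2 hM0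
    have w4 : Mz p r a * (r * C' * (((p : ℝ) + 4) * a) ^ (p + 2)) =
        ((p : ℝ) + 2) * ph p r * (r * C' * ((p : ℝ) + 4) ^ (p + 2)) := by
      rw [mul_pow, ← hM]; ring
    have w5 : ((p : ℝ) + 2) * ph p r * (r * C' * ((p : ℝ) + 4) ^ (p + 2)) ≤
        ((p : ℝ) + 3) * (r * C' * ((p : ℝ) + 4) ^ (p + 2)) :=
      mul_le_mul_of_nonneg_right (by nlinarith) (by positivity)
    have w6 : ((p : ℝ) + 3) * (r * C' * ((p : ℝ) + 4) ^ (p + 2)) =
        ((p : ℝ) + 3) * r * C' * ((p : ℝ) + 4) ^ (p + 2) := by ring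
    linarith
  -- edges
  have e1' := h3.1 G p W P U hS.par hS.disU hS.cov
  have e2' := h3.2 p a r x (sz P) hrp (by rw [← c2]; omega)
  have e3 : df G p 0 r a W = (TT (p + 3) 2 a r : ℝ) - kc G W 2 := rfl
  have t4 : (x : ℝ) * (((p : ℝ) + 2) * a) - (((r : ℝ) + x) ^ 2 + (U.card : ℝ) ^ 2) +
      (tot G P : ℝ) / 2 - ∑ z ∈ U, ((nb G (un P) z).card : ℝ) ≤ df G p 0 r a W := by
    rw [e3]; linarith
  have t5 : ((r : ℝ) + x) ^ 2 + (U.card : ℝ) ^ 2 ≤ ε * a / 8 := by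
    have w1 : ((r : ℝ) + x) ^ 2 ≤ ((r : ℝ) + 2 * C') ^ 2 :=
      pow_le_pow_left₀ (by positivity) (by linarith) _
    have w2 : (U.card : ℝ) ^ 2 ≤ C' ^ 2 := pow_le_pow_left₀ hU0 hUC _
    linarith
  -- exceptional vertices
  have t6 : ∑ z ∈ U, ((nb G (un P) z).card : ℝ) +
      1 / (2 * ((p : ℝ) + 3)) * ∑ z ∈ U, (nlow G p (un P) z : ℝ) / (a : ℝ) ^ (p + 2) ≤
      U.card * (((p : ℝ) + 2) * (1 - ph p r) * a) +
        Mz p r a * ∑ z ∈ U, TZ G p r (un P) z + ε * a / 8 := by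
    have w1 := sum_le_sum hZ
    rw [sum_add_distrib, sum_add_distrib, sum_add_distrib, sum_const, sum_const, nsmul_eq_mul,
      nsmul_eq_mul, ← mul_sum] at w1
    have w2 : ∑ z ∈ U, 1 / (2 * ((p : ℝ) + 3)) * (nlow G p (un P) z : ℝ) / (a : ℝ) ^ (p + 2) =
        1 / (2 * ((p : ℝ) + 3)) * ∑ z ∈ U, (nlow G p (un P) z : ℝ) / (a : ℝ) ^ (p + 2) := by
      rw [mul_sum]
      exact sum_congr rfl (fun z _ => by ring)
    rw [w2] at w1
    have w3 : (U.card : ℝ) * (ε / (8 * C') * a) ≤ ε * a / 8 := by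
      have k1 : (U.card : ℝ) * (ε / (8 * C') * a) ≤ C' * (ε / (8 * C') * a) :=
        mul_le_mul_of_nonneg_right hUC (by positivity)
      have k2 : C' * (ε / (8 * C') * a) = ε * a / 8 := by field_simp
      linarith
    linarith
  have t7 : (1 : ℝ) / 2 ≤ ((p : ℝ) + 2) * (1 - ph p r) := by nlinarith
  -- SPX multiplied
  have s2 := mul_le_mul_of_nonneg_left s1 hM0
  have s3 : Mz p r a * ∑ L ∈ clq G W (p + 3), min (r : ℝ) (XX G p r a W L) ≤
      Mz p r a * (((clq G (un P) (p + 3)).card : ℝ) * x) +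
      Mz p r a * ∑ L ∈ clq G (un P) (p + 3), mm G p r (un P) L -
      Mz p r a * ∑ z ∈ U, TZ G p r (un P) z +
      Mz p r a * ((r : ℝ) * U.card * (W.card : ℝ) ^ (p + 2)) := by
    refine s2.trans (le_of_eq ?_)
    unfold TZ
    ring
  exact loqFin (((p : ℝ) + 2)) (ph p r) a x U.card
    ((((p + 3) * a + r : ℕ) : ℝ) - W.card) ε _ _ _ _ _ _ _ _ _ _ s3 t1 t2 t3 t4 t5
    t6 hx2 (by linarith) (by positivity) hε.le t7

theorem LOQ_thm (h1 : PWNStmt) (h2 : MLGStmt) (h3 : EDUStmt) (h4 : SPXStmt) (h5 : ZSUStmt)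
    (h6 : TRVStmt) : LOQStmt := by
  intro p r hz C ε hC hε
  refine ⟨min 1 (ε / (8 * (C * ((p : ℝ) + 3) ^ 2))), by positivity, min_le_left _ _, ?_⟩
  intro C' hC'
  obtain ⟨ez, hez0, hez1, hez⟩ := h5 p r hz (ε / (8 * C')) (by positivity)
  obtain ⟨a₁, ha₁⟩ := hez C hC
  have hη : 0 < min 1 (min (ε / 8 / (((p : ℝ) + 3) * C')) (ε / 8 / C)) := by positivity
  obtain ⟨ea, hea0, hea⟩ := loqPow' (p + 3) _ hη
  obtain ⟨eb, heb0, heb⟩ := loqPow' (p + 2) _ hη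
  obtain ⟨a₂, ha₂⟩ := exists_nat_ge
    (((p : ℝ) + 3) * r * C' * ((p : ℝ) + 4) ^ (p + 2) / (ε / 8))
  obtain ⟨a₃, ha₃⟩ := exists_nat_ge ((((r : ℝ) + 2 * C') ^ 2 + C' ^ 2) / (ε / 8))
  refine ⟨min ez (min ea eb), by positivity, (min_le_left _ _).trans hez1,
    a₁ + a₂ + a₃ + r + 1, ?_⟩
  intro a ha V _ G e W P U he he2 hS hCB hW hW2
  have he3 : e ≤ ez := he2.trans (min_le_left _ _)
  have he4 : e ≤ ea := he2.trans ((min_le_right _ _).trans (min_le_left _ _))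
  have he5 : e ≤ eb := he2.trans ((min_le_right _ _).trans (min_le_right _ _))
  have he6 : e ≤ 1 := by linarith
  have q2 : (a₂ : ℝ) ≤ a := by exact_mod_cast (show a₂ ≤ a by omega)
  have q3 : (a₃ : ℝ) ≤ a := by exact_mod_cast (show a₃ ≤ a by omega)
  refine loqOne h1 h2 h3 h4 h6 p r hz C ε _ C' hε (by positivity) ?_ hC' e _ he hη.le
    (min_le_left _ _) ?_ ?_ (hea e he he6 he4) (heb e he he6 he5) a (by omega) (by omega) ?_ ?_
    G W P U hS hW hW2 ?_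
  · have k : min 1 (ε / (8 * (C * ((p : ℝ) + 3) ^ 2))) * (C * ((p : ℝ) + 3) ^ 2) ≤
        ε / (8 * (C * ((p : ℝ) + 3) ^ 2)) * (C * ((p : ℝ) + 3) ^ 2) :=
      mul_le_mul_of_nonneg_right (min_le_right _ _) (by positivity)
    refine k.trans (le_of_eq ?_)
    field_simp
  · have k : min 1 (min (ε / 8 / (((p : ℝ) + 3) * C')) (ε / 8 / C)) * (((p : ℝ) + 3) * C') ≤
        ε / 8 / (((p : ℝ) + 3) * C') * (((p : ℝ) + 3) * C') :=
      mul_le_mul_of_nonneg_right ((min_le_right _ _).trans (min_le_left _ _)) (by positivity)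
    refine k.trans (le_of_eq ?_)
    field_simp
  · have k : min 1 (min (ε / 8 / (((p : ℝ) + 3) * C')) (ε / 8 / C)) * C ≤
        ε / 8 / C * C :=
      mul_le_mul_of_nonneg_right ((min_le_right _ _).trans (min_le_right _ _)) hC.le
    refine k.trans (le_of_eq ?_)
    field_simp
  · have k := ha₂.trans q2
    rw [div_le_iff₀ (by positivity)] at k
    linarith
  · have k := ha₃.trans q3
    rw [div_le_iff₀ (by positivity)] at k
    linarith
  · intro z hzU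
    exact ha₁ a (by omega) G e _ C' W P U he he3 hS hCB z hzU

end Pool.ME7
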